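import Pool.Agent.H27.AVS.LMLd

/-! # AVS, module LML: the lower bound for the average -/

set_option autoImplicit false

namespace Pool.AVS

open Polynomial Matrix Pool.AVR

namespace LML

section Alg

variable {F : Type} [Field F]

theorem two_ne (h2 : (2 : F) ≠ 0) : (2 : RatFunc F) ≠ 0 := by
  intro h
  apply h2
  have : algebraMap F (RatFunc F) 2 = algebraMap F (RatFunc F) 0 := by
    rw [map_ofNat, map_zero, h]
  exact (algebraMap F (RatFunc F)).injective this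

theorem sep_iff (hD : DSCStmt) (h2 : (2 : F) ≠ 0) (f : F[X] × F[X] × F[X]) :
    (cubK f).Separable ↔ disc f.1 f.2.1 f.2.2 ≠ 0 := by
  have h := (hD (RatFunc F) (two_ne h2) (algebraMap F[X] (RatFunc F) f.1)
    (algebraMap F[X] (RatFunc F) f.2.1) (algebraMap F[X] (RatFunc F) f.2.2)).1
  have h3 : disc (algebraMap F[X] (RatFunc F) f.1) (algebraMap F[X] (RatFunc F) f.2.1)
      (algebraMap F[X] (RatFunc F) f.2.2) = algebraMap F[X] (RatFunc F)
        (disc f.1 f.2.1 f.2.2) := by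
    simp only [disc, map_add, map_sub, map_mul, map_pow, map_ofNat]
  rw [h3] at h
  unfold cubK
  rw [h, ne_eq, ne_eq, map_eq_zero_iff _ (RatFunc.algebraMap_injective F)]

/-- The good cubics. -/
def GF (F : Type) [Field F] (n : ℕ) (S : Finset F[X]) (N : ℕ) : Set (F[X] × F[X] × F[X]) :=
  {f | f ∈ Irr F n ∧ (∀ P ∈ S, ¬ P ^ N ∣ disc f.1 f.2.1 f.2.2) ∧
    ¬ X ^ N ∣ disc (finf n f).1 (finf n f).2.1 (finf n f).2.2 ∧
    (∀ P : F[X], P.Monic → Irreducible P → P ∉ S → ¬ P ^ 2 ∣ disc f.1 f.2.1 f.2.2)}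

theorem good_mem (hDS : DSCStmt) (h2 : (2 : F) ≠ 0) (n m : ℕ) (S : Finset F[X]) (N : ℕ)
    (B : Matrix (Fin 3) (Fin 3) F[X]) (hG : Gd n m S N B)
    (hf : (ia B, ib B, ic B) ∈ Fam F n)
    (ha : ia (Binf n m B) = (ia B).reflect (2 * n))
    (hb : ib (Binf n m B) = (ib B).reflect (4 * n))
    (hc : ic (Binf n m B) = (ic B).reflect (6 * n))
    (hd : dB (Binf n m B) = (dB B).reflect (12 * n)) :
    (ia B, ib B, ic B) ∈ GF F n S N := by
  obtain ⟨g1, g2, g3, g4, g5⟩ := hG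
  have hd0 : dB B ≠ 0 := by
    intro h
    apply g2
    rw [hd, h, reflect_zero]
    exact dvd_zero _
  refine ⟨⟨hf, g4, (sep_iff hDS h2 _).2 hd0⟩, g1, ?_, g3⟩
  have h : disc (finf n (ia B, ib B, ic B)).1 (finf n (ia B, ib B, ic B)).2.1
      (finf n (ia B, ib B, ic B)).2.2 = dB (Binf n m B) := by
    unfold dB finf
    rw [ha, hb, hc]
  rw [h]
  exact g2

open Classical in
/-- The sum over the good cubics and the sum over the good matrices. -/
theorem sum_GF (hL : LVFStmt) (hBI : BINStmt) (hCH : CHIStmt) (hDS : DSCStmt) [Finite F]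
    (h2 : (2 : F) ≠ 0) (n m : ℕ) (S : Finset F[X]) (N : ℕ) (hmn : m ≤ n) (hN : 1 ≤ N)
    (hS : ∀ P ∈ S, P.Monic ∧ Irreducible P)
    (hfin : {B : Matrix (Fin 3) (Fin 3) F[X] | Bd n m B}.Finite) (hG : (GF F n S N).Finite) :
    ∑ᶠ B ∈ {B : Matrix (Fin 3) (Fin 3) F[X] | Bd n m B ∧ Gd n m S N B}, WS n m S N B ≤
      ∑ f ∈ hG.toFinset, ∑ᶠ B ∈ {B : Matrix (Fin 3) (Fin 3) F[X] | Bd n m B ∧
        (AA F[X] * B).charpoly = cubP f ∧ ¬ Triv B}, WS n m S N B := by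
  have hWb := WS_bound hL F h2 n m N S hN hS
  have hf1 : {B : Matrix (Fin 3) (Fin 3) F[X] | Bd n m B ∧ Gd n m S N B}.Finite :=
    hfin.subset (fun B hB => hB.1)
  rw [finsum_mem_eq_finite_toFinset_sum _ hf1]
  have hmaps : ∀ B ∈ hf1.toFinset, (ia B, ib B, ic B) ∈ hG.toFinset := by
    intro B hB
    rw [Set.Finite.mem_toFinset] at hB ⊢
    obtain ⟨-, hb2, hb3, hb4, hb5, hb6⟩ := hBI F n m hmn B hB.1
    exact good_mem hDS h2 n m S N B hB.2 hb2 hb3 hb4 hb5 hb6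
  rw [← Finset.sum_fiberwise_of_maps_to hmaps]
  apply Finset.sum_le_sum
  intro f hf
  have hf2 : {B : Matrix (Fin 3) (Fin 3) F[X] | Bd n m B ∧
      (AA F[X] * B).charpoly = cubP f ∧ ¬ Triv B}.Finite := hfin.subset (fun B hB => hB.1)
  rw [finsum_mem_eq_finite_toFinset_sum _ hf2]
  apply Finset.sum_le_sum_of_subset_of_nonneg
  · intro B hB
    rw [Finset.mem_filter, Set.Finite.mem_toFinset] at hB
    rw [Set.Finite.mem_toFinset]
    obtain ⟨⟨h3, h4⟩, h5⟩ := hB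
    refine ⟨h3, ?_, h4.2.2.2.2⟩
    rw [(hCH F[X] B h3.1).1, ← h5]
    rfl
  · intro B _ _
    exact (hWb B).1

end Alg

/-- The sum of the reciprocals of the orders of the groups. -/
theorem sum_groups (q : ℝ) (hq : 2 ≤ q) (g : ℕ → ℝ) (h0 : g 0 = q ^ 3 - q)
    (h1 : ∀ m, 1 ≤ m → g m = (q - 1) * q ^ (m + 1)) (c : ℝ) (hc : c < 2 / q ^ 3) :
    ∃ M₀ : ℕ, c < (∑ m ∈ Finset.range (M₀ + 1), 1 / g m) * ((1 - 1 / q) * (1 - 1 / q ^ 2)) := by
  have hq0 : 0 < q := by linarith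
  have hq1 : 0 < q - 1 := by linarith
  have hiq : 1 / q < 1 := by rw [div_lt_one hq0]; linarith
  have hiq0 : 0 < 1 / q := by positivity
  have h2 : ∀ M₀ : ℕ, ∑ m ∈ Finset.range (M₀ + 1), 1 / g m =
      (1 / ((q - 1) * q ^ 2)) * (∑ i ∈ Finset.range M₀, (1 / q) ^ i) + 1 / (q ^ 3 - q) := by
    intro M₀
    rw [Finset.sum_range_succ', h0, Finset.mul_sum]
    congr 1
    apply Finset.sum_congr rfl
    intro i _
    rw [h1 (i + 1) (by omega), div_pow, one_pow]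
    field_simp
    ring
  have h3 : Filter.Tendsto (fun M₀ : ℕ => (∑ m ∈ Finset.range (M₀ + 1), 1 / g m) *
      ((1 - 1 / q) * (1 - 1 / q ^ 2))) Filter.atTop
      (nhds (((1 / ((q - 1) * q ^ 2)) * (1 - 1 / q)⁻¹ + 1 / (q ^ 3 - q)) *
        ((1 - 1 / q) * (1 - 1 / q ^ 2)))) := by
    apply Filter.Tendsto.mul_const
    have h4 : (fun M₀ : ℕ => ∑ m ∈ Finset.range (M₀ + 1), 1 / g m) = fun M₀ : ℕ =>
        (1 / ((q - 1) * q ^ 2)) * (∑ i ∈ Finset.range M₀, (1 / q) ^ i) + 1 / (q ^ 3 - q) :=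
      funext h2
    rw [h4]
    apply Filter.Tendsto.add_const
    apply Filter.Tendsto.const_mul
    exact (hasSum_geometric_of_lt_one hiq0.le hiq).tendsto_sum_nat
  have h5 : ((1 / ((q - 1) * q ^ 2)) * (1 - 1 / q)⁻¹ + 1 / (q ^ 3 - q)) *
        ((1 - 1 / q) * (1 - 1 / q ^ 2)) = 2 / q ^ 3 := by
    have h6 : q ^ 3 - q = q * (q - 1) * (q + 1) := by ring
    have h7 : 1 - 1 / q = (q - 1) / q := by field_simp
    have h8 : 1 - 1 / q ^ 2 = (q - 1) * (q + 1) / q ^ 2 := by field_simp; ring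
    have h9 : q + 1 ≠ 0 := by linarith
    rw [h6, h7, h8]
    field_simp
    ring
  rw [h5] at h3
  obtain ⟨M₀, hM⟩ := (h3.eventually_const_lt hc).exists
  exact ⟨M₀, hM⟩

end LML

open LML in
open Classical in
theorem lml_thm (hWLL : WLLStmt) (hGRE : GREStmt) (hL : LVFStmt) (hE : EQPStmt) (hFD : FDNStmt)
    (hD : LDEStmt) (hTB : TBLStmt) (hR : REDStmt) (hTV : TRVStmt) (hBI : BINStmt)
    (hCH : CHIStmt) (hCNF : CNFStmt) (hCNB : CNBStmt) (hDS : DSCStmt) (hSEH : SEHStmt)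
    (hLMU : LMUStmt) : LMLStmt := by
  intro F _ _ h2 ε hε
  have : Fintype F := Fintype.ofFinite F
  obtain ⟨q, hq⟩ : ∃ q : ℝ, q = Nat.card F := ⟨_, rfl⟩
  have hq2 : 2 ≤ q := by
    rw [hq]
    exact_mod_cast Finite.one_lt_card (α := F)
  have hq0 : 0 < q := by linarith
  have hcard : 1 ≤ Nat.card F := Nat.card_pos
  obtain ⟨hG1, hG2, hG3⟩ := hGRE F h2
  -- the groups
  have g0 : ((GG F 0).ncard : ℝ) = q ^ 3 - q := by
    rw [hG2, Nat.cast_sub (Nat.le_self_pow (by norm_num) _), hq]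
    push_cast
    ring
  have g1 : ∀ m, 1 ≤ m → ((GG F m).ncard : ℝ) = (q - 1) * q ^ (m + 1) := by
    intro m hm
    rw [hG3 m hm, Nat.cast_mul, Nat.cast_sub hcard, hq]
    push_cast
    ring
  obtain ⟨ε', hε'0, hε'1, hε'2⟩ : ∃ ε' : ℝ, 0 < ε' ∧ ε' ≤ 1 ∧ ε' ≤ ε :=
    ⟨min ε 1, lt_min hε one_pos, min_le_right _ _, min_le_left _ _⟩
  obtain ⟨M₀, hM⟩ := sum_groups q hq2 (fun m => ((GG F m).ncard : ℝ)) g0 g1
    ((2 - ε' / 2) / q ^ 3) (by
      apply div_lt_div_of_pos_right _ (by positivity)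
      linarith)
  obtain ⟨SG, hSG⟩ : ∃ SG : ℝ, SG = ∑ m ∈ Finset.range (M₀ + 1), 1 / ((GG F m).ncard : ℝ) :=
    ⟨_, rfl⟩
  have hM : (2 - ε' / 2) / q ^ 3 < SG * ((1 - 1 / q) * (1 - 1 / q ^ 2)) := by
    rw [hSG]
    exact hM
  have hgpos : ∀ m, (0 : ℝ) ≤ 1 / ((GG F m).ncard : ℝ) := fun m => by positivity
  have hSGp : 0 ≤ SG := by
    rw [hSG]
    exact Finset.sum_nonneg (fun m _ => hgpos m)
  obtain ⟨δ, hδ⟩ : ∃ δ : ℝ, δ = ε' / (2 * q ^ 3 * (SG + 1)) := ⟨_, rfl⟩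
  have hδ0 : 0 < δ := by
    rw [hδ]
    exact div_pos hε'0 (mul_pos (mul_pos two_pos (pow_pos hq0 3)) (by linarith))
  obtain ⟨S, N, hN, hS, N₁, hN₁⟩ := Tm_lower hE hL hFD hD hTB hR hTV hBI hCH F h2 q hq hq2 M₀ δ hδ0
  obtain ⟨N₂, hN₂⟩ := hLMU F h2 1 one_pos
  refine ⟨N₁ + N₂ + M₀ + 1, ?_⟩
  intro n hn
  obtain ⟨hE1, hE2, -⟩ := hN₂ n (by omega)
  obtain ⟨hF1, hF2, -⟩ := hCNF F h2 n (by omega)
  -- the good cubics
  have hGsub : GF F n S N ⊆ Ell F n := by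
    intro f hf
    exact ⟨hf.1.1, (sep_iff hDS h2 f).1 hf.1.2.2⟩
  have hGfin : (GF F n S N).Finite := hE1.subset hGsub
  -- the inequality of the weights
  have hA : ∑ f ∈ hGfin.toFinset, ((Sel f \ {1}).ncard : ℝ) ≥ (2 - ε') * q ^ (12 * n + 3) := by
    have h3 : ∀ f ∈ hGfin.toFinset, ∑ m ∈ Finset.range (n + 1),
        (∑ᶠ B ∈ {B : Matrix (Fin 3) (Fin 3) F[X] | Bd n m B ∧
          (AA F[X] * B).charpoly = cubP f ∧ ¬ Triv B}, WS n m S N B) / (GG F m).ncard ≤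
          ((Sel f \ {1}).ncard : ℝ) := by
      intro f hf
      rw [Set.Finite.mem_toFinset] at hf
      exact hWLL F h2 n N S f hf.1 hN hS hf.2.1 hf.2.2.1 hf.2.2.2
    have h4 := Finset.sum_le_sum h3
    rw [Finset.sum_comm] at h4
    have hnn : ∀ (m : ℕ) (f : F[X] × F[X] × F[X]), (0 : ℝ) ≤
        (∑ᶠ B ∈ {B : Matrix (Fin 3) (Fin 3) F[X] | Bd n m B ∧
          (AA F[X] * B).charpoly = cubP f ∧ ¬ Triv B}, WS n m S N B) / (GG F m).ncard := by
      intro m f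
      apply div_nonneg _ (by positivity)
      apply finsum_nonneg
      intro B
      apply finsum_nonneg
      intro _
      exact (WS_bound hL F h2 n m N S hN hS B).1
    have h5 : ∑ m ∈ Finset.range (M₀ + 1), ∑ f ∈ hGfin.toFinset,
        (∑ᶠ B ∈ {B : Matrix (Fin 3) (Fin 3) F[X] | Bd n m B ∧
          (AA F[X] * B).charpoly = cubP f ∧ ¬ Triv B}, WS n m S N B) / (GG F m).ncard ≤
        ∑ m ∈ Finset.range (n + 1), ∑ f ∈ hGfin.toFinset,
        (∑ᶠ B ∈ {B : Matrix (Fin 3) (Fin 3) F[X] | Bd n m B ∧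
          (AA F[X] * B).charpoly = cubP f ∧ ¬ Triv B}, WS n m S N B) / (GG F m).ncard := by
      apply Finset.sum_le_sum_of_subset_of_nonneg
      · intro m hm
        rw [Finset.mem_range] at hm ⊢
        omega
      · intro m _ _
        exact Finset.sum_nonneg (fun f _ => hnn m f)
    have h6 : ∀ m ∈ Finset.range (M₀ + 1), (1 / ((GG F m).ncard : ℝ)) *
        (q ^ (12 * n + 6) * ((1 - 1 / q) * (1 - 1 / q ^ 2) - δ)) ≤
        ∑ f ∈ hGfin.toFinset,
        (∑ᶠ B ∈ {B : Matrix (Fin 3) (Fin 3) F[X] | Bd n m B ∧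
          (AA F[X] * B).charpoly = cubP f ∧ ¬ Triv B}, WS n m S N B) / (GG F m).ncard := by
      intro m hm
      rw [Finset.mem_range] at hm
      have hmn : m ≤ n := by omega
      have h7 := hN₁ n (by omega) m (by omega)
      have h8 := sum_GF hL hBI hCH hDS h2 n m S N hmn hN hS (hCNB F n m hmn).1 hGfin
      rw [← Finset.sum_div]
      calc _ ≤ (1 / ((GG F m).ncard : ℝ)) * ∑ f ∈ hGfin.toFinset,
            ∑ᶠ B ∈ {B : Matrix (Fin 3) (Fin 3) F[X] | Bd n m B ∧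
              (AA F[X] * B).charpoly = cubP f ∧ ¬ Triv B}, WS n m S N B :=
            mul_le_mul_of_nonneg_left (h7.trans h8) (hgpos m)
        _ = _ := by rw [one_div, div_eq_mul_inv, mul_comm]
    have h7 := Finset.sum_le_sum h6
    rw [← Finset.sum_mul, ← hSG] at h7
    have h8 : (2 - ε') * q ^ (12 * n + 3) ≤
        SG * (q ^ (12 * n + 6) * ((1 - 1 / q) * (1 - 1 / q ^ 2) - δ)) := by
      have h9 : SG * δ ≤ ε' / 2 / q ^ 3 := by
        have h10 : SG * δ = ε' / 2 / q ^ 3 * (SG / (SG + 1)) := by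
          rw [hδ]
          field_simp
        rw [h10]
        have h11 : SG / (SG + 1) ≤ 1 := by
          rw [div_le_one (by positivity)]
          linarith
        calc _ ≤ ε' / 2 / q ^ 3 * 1 := mul_le_mul_of_nonneg_left h11 (by positivity)
          _ = _ := mul_one _
      have h12 : (2 - ε') / q ^ 3 ≤ SG * ((1 - 1 / q) * (1 - 1 / q ^ 2)) - SG * δ := by
        have h13 : (2 - ε' / 2) / q ^ 3 - ε' / 2 / q ^ 3 = (2 - ε') / q ^ 3 := by ring
        rw [← h13]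
        linarith
      calc (2 - ε') * q ^ (12 * n + 3) = q ^ (12 * n + 6) * ((2 - ε') / q ^ 3) := by
            have h14 : q ^ (12 * n + 6) = q ^ (12 * n + 3) * q ^ 3 := by ring
            rw [h14]
            field_simp
        _ ≤ q ^ (12 * n + 6) * (SG * ((1 - 1 / q) * (1 - 1 / q ^ 2)) - SG * δ) :=
            mul_le_mul_of_nonneg_left h12 (by positivity)
        _ = _ := by ring
    linarith
  -- the sum over all curves
  rw [finsum_mem_eq_finite_toFinset_sum _ hE1]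
  have hsel : ∀ f ∈ hE1.toFinset, ((Sel f).ncard : ℝ) = ((Sel f \ {1}).ncard : ℝ) + 1 := by
    intro f hf
    rw [Set.Finite.mem_toFinset] at hf
    have h3 := Set.ncard_sdiff_singleton_add_one (hSEH F h2 f).2.2 (hE2 f hf)
    exact_mod_cast h3.symm
  rw [Finset.sum_congr rfl hsel, Finset.sum_add_distrib, Finset.sum_const, nsmul_eq_mul, mul_one]
  have hB : ∑ f ∈ hGfin.toFinset, ((Sel f \ {1}).ncard : ℝ) ≤
      ∑ f ∈ hE1.toFinset, ((Sel f \ {1}).ncard : ℝ) := by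
    apply Finset.sum_le_sum_of_subset_of_nonneg
    · intro f hf
      rw [Set.Finite.mem_toFinset] at hf ⊢
      exact hGsub hf
    · intro f _ _
      positivity
  have hC : (hE1.toFinset.card : ℝ) = ((Ell F n).ncard : ℝ) := by
    rw [Set.ncard_eq_toFinset_card _ hE1]
  have hC2 : ((Ell F n).ncard : ℝ) ≤ q ^ (12 * n + 3) := by
    have h3 : (Ell F n).ncard ≤ (Fam F n).ncard := Set.ncard_le_ncard (fun f hf => hf.1) hF1
    rw [hF2] at h3
    rw [hq]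
    exact_mod_cast h3
  rw [hC]
  have h3 : (2 - ε') * ((Ell F n).ncard : ℝ) ≤ (2 - ε') * q ^ (12 * n + 3) :=
    mul_le_mul_of_nonneg_left hC2 (by linarith)
  have h4 : (3 - ε) * ((Ell F n).ncard : ℝ) ≤ (3 - ε') * ((Ell F n).ncard : ℝ) :=
    mul_le_mul_of_nonneg_right (by linarith) (by positivity)
  have h5 : (3 - ε') * ((Ell F n).ncard : ℝ) =
      (2 - ε') * ((Ell F n).ncard : ℝ) + ((Ell F n).ncard : ℝ) := by ring
  linarith

end Pool.AVS
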