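import Pool.Agent.H14.AVS.S4
import Pool.Agent.H87.AVR.ZET

/-! # AVS, module LML, part a: Euler product from below, numbers of primes -/

set_option autoImplicit false

namespace Pool.AVS

open Polynomial Matrix Pool.AVR

namespace LML

variable {F : Type} [Field F]

theorem eq_mon {P : F[X]} (hP : P.Monic) :
    P = Pool.AVR.ZET.mon P.natDegree (fun i => P.coeff i) := by
  ext k
  rcases lt_trichotomy k P.natDegree with h | h | h
  · have := Pool.AVR.ZET.mon_coeff P.natDegree (fun i : Fin P.natDegree => P.coeff i) ⟨k, h⟩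
    simpa using this.symm
  · have h1 := (Pool.AVR.ZET.mon_monic P.natDegree (fun i : Fin P.natDegree => P.coeff i)).coeff_natDegree
    rw [Pool.AVR.ZET.mon_natDegree] at h1
    rw [h, h1, hP.coeff_natDegree]
  · rw [coeff_eq_zero_of_natDegree_lt h, coeff_eq_zero_of_natDegree_lt]
    rw [Pool.AVR.ZET.mon_natDegree]
    exact h

open Classical in
/-- The monic polynomials of degree `d`. -/
noncomputable def mons (F : Type) [Field F] [Fintype F] (d : ℕ) : Finset F[X] :=
  (Finset.univ : Finset (Fin d → F)).image (Pool.AVR.ZET.mon d)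

theorem mem_mons [Fintype F] {d : ℕ} {P : F[X]} : P ∈ mons F d ↔ P.Monic ∧ P.natDegree = d := by
  classical
  unfold mons
  rw [Finset.mem_image]
  constructor
  · rintro ⟨c, _, rfl⟩
    exact ⟨Pool.AVR.ZET.mon_monic _ _, Pool.AVR.ZET.mon_natDegree _ _⟩
  · rintro ⟨h1, h2⟩
    subst h2
    exact ⟨_, Finset.mem_univ _, (eq_mon h1).symm⟩

theorem card_mons [Fintype F] (d : ℕ) : (mons F d).card ≤ Fintype.card F ^ d := by
  classical
  unfold mons
  refine Finset.card_image_le.trans ?_
  rw [Finset.card_univ, Fintype.card_fun, Fintype.card_fin]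

open Classical in
/-- The monic irreducible polynomials of degree at most `D`. -/
noncomputable def prs (F : Type) [Field F] [Fintype F] (D : ℕ) : Finset F[X] :=
  ((Finset.range (D + 1)).biUnion (mons F)).filter Irreducible

theorem mem_prs [Fintype F] {D : ℕ} {P : F[X]} :
    P ∈ prs F D ↔ P.Monic ∧ Irreducible P ∧ P.natDegree ≤ D := by
  classical
  unfold prs
  rw [Finset.mem_filter, Finset.mem_biUnion]
  constructor
  · rintro ⟨⟨d, h1, h2⟩, h3⟩
    rw [mem_mons] at h2
    rw [Finset.mem_range] at h1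
    exact ⟨h2.1, h3, by omega⟩
  · rintro ⟨h1, h2, h3⟩
    exact ⟨⟨P.natDegree, Finset.mem_range.2 (by omega), mem_mons.2 ⟨h1, rfl⟩⟩, h2⟩

/-- The Euler product from below. -/
theorem euler_lower [Fintype F] (q : ℝ) (hqF : (Fintype.card F : ℝ) = q) (hq : 1 < q)
    (S : Finset F[X]) (hm : ∀ P ∈ S, P.Monic ∧ Irreducible P) :
    1 - 1 / q ≤ ∏ P ∈ S, (1 - 1 / q ^ (2 * P.natDegree)) := by
  classical
  have hq0 : 0 < q := by linarith
  have hiq : 1 / q < 1 := by rw [div_lt_one hq0]; exact hq
  have hiq0 : 0 < 1 / q := by positivity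
  have hx : ∀ P ∈ S, 0 < 1 / q ^ (2 * P.natDegree) ∧ 1 / q ^ (2 * P.natDegree) < 1 := by
    intro P hP
    refine ⟨by positivity, ?_⟩
    rw [div_lt_one (by positivity)]
    apply one_lt_pow₀ hq
    have := (hm P hP).2.natDegree_pos
    omega
  -- every partial product
  have hK : ∀ K : ℕ, ∏ P ∈ S, ∑ k ∈ Finset.range K, (1 / q ^ (2 * P.natDegree)) ^ k ≤
      (1 - 1 / q)⁻¹ := by
    intro K
    let gg : (S → ℕ) → F[X] := fun κ => ∏ P : S, (P : F[X]) ^ κ P
    let A : Finset (S → ℕ) := Fintype.piFinset (fun _ : S => Finset.range K)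
    have hgm : ∀ κ, (gg κ).Monic := by
      intro κ
      apply monic_prod_of_monic
      intro P _
      exact (hm P P.2).1.pow _
    have hgd : ∀ κ, (gg κ).natDegree = ∑ P : S, κ P * (P : F[X]).natDegree := by
      intro κ
      show (∏ P : S, (P : F[X]) ^ κ P).natDegree = _
      rw [natDegree_prod_of_monic Finset.univ (fun P : S => (P : F[X]) ^ κ P)
        (fun P _ => (hm P.1 P.2).1.pow _)]
      apply Finset.sum_congr rfl
      intro P _
      rw [(hm P.1 P.2).1.natDegree_pow]
    have hcop : ∀ P Q : S, P ≠ Q → IsCoprime (P : F[X]) (Q : F[X]) := by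
      intro P Q hPQ
      apply ((hm P P.2).2.coprime_iff_not_dvd).2
      intro h
      apply hPQ
      apply Subtype.ext
      exact eq_of_monic_of_associated (hm P P.2).1 (hm Q Q.2).1
        ((hm P P.2).2.associated_of_dvd (hm Q Q.2).2 h)
    have hdv : ∀ (κ : S → ℕ) (P : S) (j : ℕ), (P : F[X]) ^ j ∣ gg κ ↔ j ≤ κ P := by
      intro κ P j
      constructor
      · intro h
        have h1 : gg κ = (P : F[X]) ^ κ P * ∏ Q ∈ Finset.univ.erase P, (Q : F[X]) ^ κ Q :=
          (Finset.mul_prod_erase Finset.univ (fun Q : S => (Q : F[X]) ^ κ Q)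
            (Finset.mem_univ P)).symm
        have h2 : IsCoprime ((P : F[X]) ^ j) (∏ Q ∈ Finset.univ.erase P, (Q : F[X]) ^ κ Q) := by
          apply IsCoprime.prod_right
          intro Q hQ
          exact (hcop P Q (Finset.ne_of_mem_erase hQ).symm).pow
        rw [h1] at h
        have h3 := h2.dvd_of_dvd_mul_right h
        exact (pow_dvd_pow_iff (hm P P.2).2.ne_zero (hm P P.2).2.not_isUnit).1 h3
      · intro h
        exact (pow_dvd_pow _ h).trans (Finset.dvd_prod_of_mem (fun Q : S => (Q : F[X]) ^ κ Q)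
          (Finset.mem_univ P))
    have hinj : Function.Injective gg := by
      intro κ κ' h
      funext P
      apply le_antisymm
      · rw [← hdv κ' P, ← h, hdv]
      · rw [← hdv κ P, h, hdv]
    let D : ℕ := A.sup (fun κ => (gg κ).natDegree)
    have hsub : A.image gg ⊆ (Finset.range (D + 1)).biUnion (mons F) := by
      intro g hg
      obtain ⟨κ, hκ, rfl⟩ := Finset.mem_image.1 hg
      rw [Finset.mem_biUnion]
      refine ⟨(gg κ).natDegree, ?_, mem_mons.2 ⟨hgm κ, rfl⟩⟩
      rw [Finset.mem_range]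
      have : (gg κ).natDegree ≤ D := Finset.le_sup (f := fun κ => (gg κ).natDegree) hκ
      omega
    have h1 : ∏ P ∈ S, ∑ k ∈ Finset.range K, (1 / q ^ (2 * P.natDegree)) ^ k =
        ∑ κ ∈ A, 1 / q ^ (2 * (gg κ).natDegree) := by
      rw [← Finset.prod_coe_sort S
        (fun P => ∑ k ∈ Finset.range K, (1 / q ^ (2 * P.natDegree)) ^ k)]
      rw [Finset.prod_univ_sum]
      apply Finset.sum_congr rfl
      intro κ _
      have h0 : 1 / q ^ (2 * (gg κ).natDegree) =
          ∏ P : S, 1 / q ^ (2 * (κ P * (P : F[X]).natDegree)) := by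
        rw [Finset.prod_div_distrib, Finset.prod_const_one, Finset.prod_pow_eq_pow_sum,
          ← Finset.mul_sum, hgd κ]
      rw [h0]
      apply Finset.prod_congr rfl
      intro P _
      rw [div_pow, one_pow, ← pow_mul]
      congr 2
      ring
    rw [h1]
    have h2 : ∑ κ ∈ A, 1 / q ^ (2 * (gg κ).natDegree) =
        ∑ g ∈ A.image gg, 1 / q ^ (2 * g.natDegree) :=
      (Finset.sum_image (f := fun g : F[X] => 1 / q ^ (2 * g.natDegree))
        (fun κ _ κ' _ h => hinj h)).symm
    rw [h2]
    calc ∑ g ∈ A.image gg, 1 / q ^ (2 * g.natDegree)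
        ≤ ∑ g ∈ (Finset.range (D + 1)).biUnion (mons F), 1 / q ^ (2 * g.natDegree) := by
          apply Finset.sum_le_sum_of_subset_of_nonneg hsub
          intro g _ _
          positivity
      _ ≤ ∑ d ∈ Finset.range (D + 1), ∑ g ∈ mons F d, 1 / q ^ (2 * g.natDegree) := by
          rw [Finset.sum_biUnion]
          intro d _ d' _ hdd
          show Disjoint (mons F d) (mons F d')
          rw [Finset.disjoint_left]
          intro g h7 h8
          rw [mem_mons] at h7 h8
          exact hdd (h7.2.symm.trans h8.2)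
      _ ≤ ∑ d ∈ Finset.range (D + 1), (1 / q) ^ d := by
          apply Finset.sum_le_sum
          intro d _
          have h3 : ∀ g ∈ mons F d, 1 / q ^ (2 * g.natDegree) = 1 / q ^ (2 * d) := by
            intro g hg
            rw [(mem_mons.1 hg).2]
          rw [Finset.sum_congr rfl h3, Finset.sum_const, nsmul_eq_mul]
          have h4 : ((mons F d).card : ℝ) ≤ q ^ d := by
            rw [← hqF]
            exact_mod_cast card_mons (F := F) d
          calc ((mons F d).card : ℝ) * (1 / q ^ (2 * d)) ≤ q ^ d * (1 / q ^ (2 * d)) :=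
                mul_le_mul_of_nonneg_right h4 (by positivity)
            _ = (1 / q) ^ d := by
                rw [div_pow, one_pow, two_mul, pow_add]
                field_simp
      _ ≤ (1 - 1 / q)⁻¹ := by
          exact (hasSum_geometric_of_lt_one hiq0.le hiq).summable.sum_le_tsum _
            (fun _ _ => by positivity) |>.trans (tsum_geometric_of_lt_one hiq0.le hiq).le
  have hlim : Filter.Tendsto (fun K : ℕ => ∏ P ∈ S, ∑ k ∈ Finset.range K,
      (1 / q ^ (2 * P.natDegree)) ^ k) Filter.atTop
      (nhds (∏ P ∈ S, (1 - 1 / q ^ (2 * P.natDegree))⁻¹)) := by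
    apply tendsto_finsetProd
    intro P hP
    exact (hasSum_geometric_of_lt_one (hx P hP).1.le (hx P hP).2).tendsto_sum_nat
  have h5 := le_of_tendsto' hlim hK
  rw [Finset.prod_inv_distrib] at h5
  have h6 : 0 < ∏ P ∈ S, (1 - 1 / q ^ (2 * P.natDegree)) := by
    apply Finset.prod_pos
    intro P hP
    have := (hx P hP).2
    linarith
  exact (inv_le_inv₀ h6 (by linarith)).1 h5

end LML

end Pool.AVS
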