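import Pool.Agent.H27.AVS.LMLa

/-! # AVS, module LML, part b: equidistribution for functions on matrices of polynomials -/

set_option autoImplicit false

namespace Pool.AVS

open Polynomial Matrix Pool.AVR

namespace LML

/-- The local average. -/
noncomputable def Loc {F : Type} [Field F] (P : F[X]) (k : ℕ)
    (φ : Matrix (Fin 3) (Fin 3) F[X] → ℝ) : ℝ :=
  (∑ᶠ B ∈ {B : Matrix (Fin 3) (Fin 3) (AdjoinRoot (P ^ k)) | Bᵀ = B}, φ (B.map lft)) /
    (Nat.card F : ℝ) ^ (6 * (k * P.natDegree))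

theorem Loc_nonneg {F : Type} [Field F] (P : F[X]) (k : ℕ)
    (φ : Matrix (Fin 3) (Fin 3) F[X] → ℝ) (h : ∀ B, 0 ≤ φ B) : 0 ≤ Loc P k φ := by
  unfold Loc
  apply div_nonneg
  · apply finsum_nonneg
    intro B
    apply finsum_nonneg
    intro _
    exact h _
  · positivity

open Classical in
theorem eqp_gen (hE : EQPStmt) (F : Type) [Field F] [Finite F] (n m N : ℕ) (S : Finset F[X])
    (e : F[X] → ℕ) (hmn : m ≤ n) (hN : 1 ≤ N) (hS : ∀ P ∈ S, P.Monic ∧ Irreducible P)
    (he : ∀ P ∈ S, 1 ≤ e P) (hdeg : (∑ P ∈ S, e P * P.natDegree) + N ≤ 2 * (n - m) + 1)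
    (φ : F[X] → Matrix (Fin 3) (Fin 3) F[X] → ℝ)
    (hφ : ∀ P ∈ S, ∀ B : Matrix (Fin 3) (Fin 3) F[X],
      φ P ((B.map (AdjoinRoot.mk (P ^ e P))).map lft) = φ P B)
    (ψ : Matrix (Fin 3) (Fin 3) F[X] → ℝ)
    (hψ : ∀ B : Matrix (Fin 3) (Fin 3) F[X],
      ψ ((B.map (AdjoinRoot.mk ((X : F[X]) ^ N))).map lft) = ψ B) :
    {B : Matrix (Fin 3) (Fin 3) F[X] | Bd n m B}.Finite ∧
    ∑ᶠ B ∈ {B : Matrix (Fin 3) (Fin 3) F[X] | Bd n m B}, (∏ P ∈ S, φ P B) * ψ (Binf n m B) =
      (Nat.card F : ℝ) ^ (12 * n + 6) *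
        (∏ P ∈ S, Loc P (e P) (φ P)) * Loc X N ψ := by
  have hinj : ∀ P ∈ S, ∀ Q ∈ S, P ^ e P = Q ^ e Q → P = Q := by
    intro P hP Q hQ h
    have h1 : P ∣ Q ^ e Q := by
      rw [← h]
      exact dvd_pow_self P (by have := he P hP; omega)
    have h2 := (hS P hP).2.prime.dvd_of_dvd_pow h1
    exact eq_of_monic_of_associated (hS P hP).1 (hS Q hQ).1
      ((hS P hP).2.associated_of_dvd (hS Q hQ).2 h2)
  have hcop : ∀ P ∈ S, ∀ Q ∈ S, P ≠ Q → IsCoprime P Q := by
    intro P hP Q hQ hPQ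
    apply ((hS P hP).2.coprime_iff_not_dvd).2
    intro h
    exact hPQ (eq_of_monic_of_associated (hS P hP).1 (hS Q hQ).1
      ((hS P hP).2.associated_of_dvd (hS Q hQ).2 h))
  have hfil : ∀ P ∈ S, S.filter (fun Q => Q ^ e Q = P ^ e P) = {P} := by
    intro P hP
    ext Q
    rw [Finset.mem_filter, Finset.mem_singleton]
    constructor
    · rintro ⟨h1, h2⟩
      exact hinj Q h1 P hP h2
    · rintro rfl
      exact ⟨hP, rfl⟩
  have key := hE F n m N (S.image (fun P => P ^ e P)) hmn hN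
    (by
      intro M hM
      obtain ⟨P, hP, rfl⟩ := Finset.mem_image.1 hM
      exact (hS P hP).1.pow _)
    (by
      intro M hM M' hM' hne
      obtain ⟨P, hP, rfl⟩ := Finset.mem_image.1 hM
      obtain ⟨Q, hQ, rfl⟩ := Finset.mem_image.1 hM'
      have : P ≠ Q := by
        rintro rfl
        exact hne rfl
      exact (hcop P hP Q hQ this).pow)
    (by
      rw [Finset.sum_image (fun P hP Q hQ h => hinj P hP Q hQ h)]
      refine le_trans (le_of_eq ?_) hdeg
      congr 1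
      apply Finset.sum_congr rfl
      intro P hP
      rw [(hS P hP).1.natDegree_pow])
    (fun M B => ∑ P ∈ S.filter (fun P => P ^ e P = M), φ P (B.map lft))
    (fun B => ψ (B.map lft))
  refine ⟨key.1, ?_⟩
  have h1 := key.2
  rw [Finset.prod_image (fun P hP Q hQ h => hinj P hP Q hQ h)] at h1
  have h2 : ∀ B : Matrix (Fin 3) (Fin 3) F[X],
      (∏ M ∈ S.image (fun P => P ^ e P), ∑ P ∈ S.filter (fun P => P ^ e P = M),
        φ P ((B.map (AdjoinRoot.mk M)).map lft)) = ∏ P ∈ S, φ P B := by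
    intro B
    rw [Finset.prod_image (fun P hP Q hQ h => hinj P hP Q hQ h)]
    apply Finset.prod_congr rfl
    intro P hP
    rw [hfil P hP, Finset.sum_singleton]
    exact hφ P hP B
  have h3 : ∀ B : Matrix (Fin 3) (Fin 3) F[X],
      ψ (((Binf n m B).map (AdjoinRoot.mk ((X : F[X]) ^ N))).map lft) = ψ (Binf n m B) :=
    fun B => hψ _
  have h4 : ∀ B : Matrix (Fin 3) (Fin 3) F[X],
      (∏ M ∈ S.image (fun P => P ^ e P), ∑ P ∈ S.filter (fun P => P ^ e P = M),
        φ P ((B.map (AdjoinRoot.mk M)).map lft)) *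
      ψ (((Binf n m B).map (AdjoinRoot.mk ((X : F[X]) ^ N))).map lft) =
      (∏ P ∈ S, φ P B) * ψ (Binf n m B) := fun B => by rw [h2 B, h3 B]
  rw [finsum_mem_congr rfl (fun B _ => h4 B)] at h1
  rw [h1]
  unfold Loc
  rw [natDegree_X, mul_one]
  congr 2
  apply Finset.prod_congr rfl
  intro P hP
  rw [(hS P hP).1.natDegree_pow]
  congr 1
  apply finsum_mem_congr rfl
  intro B _
  rw [hfil P hP, Finset.sum_singleton]

/-- Decomposition of the symmetric matrices over a finite ring by the invariants. -/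
theorem fib_sum (R : Type) [CommRing R] [Finite R] (g : Matrix (Fin 3) (Fin 3) R → ℝ) :
    ∑ᶠ B ∈ {B : Matrix (Fin 3) (Fin 3) R | Bᵀ = B}, g B =
      ∑ᶠ t : R × R × R, ∑ᶠ B ∈ Fb t.1 t.2.1 t.2.2, g B := by
  classical
  have : Fintype R := Fintype.ofFinite R
  have hf : ∀ s : Set (Matrix (Fin 3) (Fin 3) R), s.Finite := fun s => Set.toFinite s
  rw [finsum_mem_eq_finite_toFinset_sum g (hf _), finsum_eq_sum_of_fintype]
  rw [← Finset.sum_fiberwise (hf {B : Matrix (Fin 3) (Fin 3) R | Bᵀ = B}).toFinset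
    (fun B => (ia B, ib B, ic B)) g]
  apply Finset.sum_congr rfl
  rintro ⟨a, b, c⟩ _
  rw [finsum_mem_eq_finite_toFinset_sum g (hf _)]
  apply Finset.sum_congr
  · ext B
    simp only [Finset.mem_filter, Set.Finite.mem_toFinset, Set.mem_ofPred_eq, Fb, Prod.mk.injEq]
  · intros
    rfl

open Classical in
/-- The discriminant of a reduction. -/
theorem dB_map {R R' : Type} [CommRing R] [CommRing R'] (f : R →+* R')
    (B : Matrix (Fin 3) (Fin 3) R) : dB (B.map f) = f (dB B) := by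
  simp only [dB, disc, ia, ib, ic, Matrix.det_fin_three, Matrix.map_apply, map_add, map_sub,
    map_mul, map_pow, map_neg, map_ofNat]

theorem mk_lft {F : Type} [Field F] {M : F[X]} (x : AdjoinRoot M) :
    AdjoinRoot.mk M (lft x) = x := Function.surjInv_eq AdjoinRoot.mk_surjective x

theorem map_lft {F : Type} [Field F] {M : F[X]} (B : Matrix (Fin 3) (Fin 3) (AdjoinRoot M)) :
    (B.map lft).map (AdjoinRoot.mk M) = B := by
  ext i j
  simp only [Matrix.map_apply, mk_lft]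

theorem dvd_dB {F : Type} [Field F] {M : F[X]} (B : Matrix (Fin 3) (Fin 3) F[X]) :
    M ∣ dB B ↔ dB (B.map (AdjoinRoot.mk M)) = 0 := by
  rw [dB_map, AdjoinRoot.mk_eq_zero]

theorem dvd_dB_lft {F : Type} [Field F] {M : F[X]}
    (B : Matrix (Fin 3) (Fin 3) (AdjoinRoot M)) :
    M ∣ dB (B.map lft) ↔ dB B = 0 := by
  rw [dvd_dB, map_lft]

/-- The local sum. -/
theorem loc_one (hL : LVFStmt) (F : Type) [Field F] [Finite F] (h2 : (2 : F) ≠ 0) (P : F[X])
    (N : ℕ) (hP : P.Monic) (hPi : Irreducible P) (hN : 1 ≤ N) :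
    Loc P N (wt P N) = 1 - 1 / (Nat.card F : ℝ) ^ (2 * P.natDegree) := by
  unfold Loc
  obtain ⟨h3, -, -, -, h4⟩ := hL F h2 P N hP hPi hN
  have hq : (0 : ℝ) < Nat.card F := by exact_mod_cast Nat.card_pos
  have : Finite (AdjoinRoot (P ^ N)) := by
    apply Nat.finite_of_card_ne_zero
    rw [h3]
    exact pow_ne_zero _ Nat.card_pos.ne'
  have : Fintype (AdjoinRoot (P ^ N)) := Fintype.ofFinite _
  rw [fib_sum]
  have h6 : ∀ t : AdjoinRoot (P ^ N) × AdjoinRoot (P ^ N) × AdjoinRoot (P ^ N),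
      ∑ᶠ B ∈ Fb t.1 t.2.1 t.2.2, wt P N (B.map lft) =
      (1 - 1 / (Nat.card F : ℝ) ^ (2 * P.natDegree)) *
        (Nat.card F : ℝ) ^ (3 * (N * P.natDegree)) := fun t => h4 t.1 t.2.1 t.2.2
  rw [finsum_congr h6, finsum_eq_sum_of_fintype, Finset.sum_const,
    Finset.card_univ, nsmul_eq_mul, ← Nat.card_eq_fintype_card, Nat.card_prod, Nat.card_prod, h3]
  push_cast
  rw [div_eq_iff (by positivity)]
  ring

open Classical in
/-- The local sum over the bad matrices. -/
theorem loc_bad (hL : LVFStmt) (F : Type) [Field F] [Finite F] (h2 : (2 : F) ≠ 0) (P : F[X])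
    (N : ℕ) (hP : P.Monic) (hPi : Irreducible P) (hN : 1 ≤ N) (ε : ℝ)
    (h5 : ({t : AdjoinRoot (P ^ N) × AdjoinRoot (P ^ N) × AdjoinRoot (P ^ N) |
      disc t.1 t.2.1 t.2.2 = 0}.ncard : ℝ) ≤ ε * (Nat.card F : ℝ) ^ (3 * (N * P.natDegree))) :
    Loc P N (fun B => wt P N B * (if P ^ N ∣ dB B then 1 else 0)) ≤ ε := by
  unfold Loc
  obtain ⟨h3, -, -, -, h4⟩ := hL F h2 P N hP hPi hN
  have hq : (0 : ℝ) < Nat.card F := by exact_mod_cast Nat.card_pos
  have : Finite (AdjoinRoot (P ^ N)) := by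
    apply Nat.finite_of_card_ne_zero
    rw [h3]
    exact pow_ne_zero _ Nat.card_pos.ne'
  have : Fintype (AdjoinRoot (P ^ N)) := Fintype.ofFinite _
  rw [fib_sum]
  have h6 : ∀ t : AdjoinRoot (P ^ N) × AdjoinRoot (P ^ N) × AdjoinRoot (P ^ N),
      ∑ᶠ B ∈ Fb t.1 t.2.1 t.2.2, wt P N (B.map lft) *
        (if P ^ N ∣ dB (B.map lft) then (1 : ℝ) else 0) =
      if disc t.1 t.2.1 t.2.2 = 0 then (1 - 1 / (Nat.card F : ℝ) ^ (2 * P.natDegree)) *
        (Nat.card F : ℝ) ^ (3 * (N * P.natDegree)) else 0 := by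
    intro t
    have h7 : ∀ B ∈ Fb t.1 t.2.1 t.2.2, wt P N (B.map lft) *
        (if P ^ N ∣ dB (B.map lft) then (1 : ℝ) else 0) =
        wt P N (B.map lft) * (if disc t.1 t.2.1 t.2.2 = 0 then 1 else 0) := by
      intro B hB
      obtain ⟨-, h8, h9, h10⟩ := hB
      rw [dvd_dB_lft]
      unfold dB
      rw [h8, h9, h10]
    rw [finsum_mem_congr rfl h7]
    split_ifs with h8
    · rw [← h4 t.1 t.2.1 t.2.2]
      apply finsum_mem_congr rfl
      intro B _
      rw [mul_one]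
    · simp
  rw [finsum_congr h6, finsum_eq_sum_of_fintype, ← Finset.sum_filter, Finset.sum_const,
    nsmul_eq_mul]
  have h7 : ((Finset.univ.filter (fun t : AdjoinRoot (P ^ N) × AdjoinRoot (P ^ N) ×
      AdjoinRoot (P ^ N) => disc t.1 t.2.1 t.2.2 = 0)).card : ℝ) ≤
      ε * (Nat.card F : ℝ) ^ (3 * (N * P.natDegree)) := by
    refine le_trans (le_of_eq ?_) h5
    rw [← Set.ncard_coe_finset]
    congr 2
    ext t
    simp
  rw [div_le_iff₀ (by positivity)]
  have h8 : (0 : ℝ) ≤ 1 - 1 / (Nat.card F : ℝ) ^ (2 * P.natDegree) := by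
    have : 1 / (Nat.card F : ℝ) ^ (2 * P.natDegree) ≤ 1 := by
      rw [div_le_one (by positivity)]
      apply one_le_pow₀
      exact_mod_cast Nat.card_pos
    linarith
  have h9 : 1 - 1 / (Nat.card F : ℝ) ^ (2 * P.natDegree) ≤ 1 := by
    have : (0 : ℝ) ≤ 1 / (Nat.card F : ℝ) ^ (2 * P.natDegree) := by positivity
    linarith
  have hε : 0 ≤ ε * (Nat.card F : ℝ) ^ (3 * (N * P.natDegree)) := le_trans (by positivity) h5
  calc _ ≤ (ε * (Nat.card F : ℝ) ^ (3 * (N * P.natDegree))) *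
        ((1 - 1 / (Nat.card F : ℝ) ^ (2 * P.natDegree)) *
          (Nat.card F : ℝ) ^ (3 * (N * P.natDegree))) :=
        mul_le_mul_of_nonneg_right h7 (mul_nonneg h8 (by positivity))
    _ ≤ (ε * (Nat.card F : ℝ) ^ (3 * (N * P.natDegree))) *
        (1 * (Nat.card F : ℝ) ^ (3 * (N * P.natDegree))) :=
        mul_le_mul_of_nonneg_left (mul_le_mul_of_nonneg_right h9 (by positivity)) hε
    _ = ε * (Nat.card F : ℝ) ^ (6 * (N * P.natDegree)) := by ring

open Classical in
/-- The local sum at the other primes. -/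
theorem loc_two (hD : LDEStmt) (hL : LVFStmt) (F : Type) [Field F] [Finite F] (h2 : (2 : F) ≠ 0)
    (P : F[X]) (hP : P.Monic) (hPi : Irreducible P) :
    Loc P 2 (fun B => if P ^ 2 ∣ dB B then (1 : ℝ) else 0) ≤
      3 / (Nat.card F : ℝ) ^ (2 * P.natDegree) := by
  unfold Loc
  obtain ⟨h3, -⟩ := hL F h2 P 2 hP hPi (by norm_num)
  obtain ⟨-, -, h4⟩ := hD F h2 P hP hPi
  have hq : (0 : ℝ) < Nat.card F := by exact_mod_cast Nat.card_pos
  have : Finite (AdjoinRoot (P ^ 2)) := by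
    apply Nat.finite_of_card_ne_zero
    rw [h3]
    exact pow_ne_zero _ Nat.card_pos.ne'
  have : Fintype (AdjoinRoot (P ^ 2)) := Fintype.ofFinite _
  have hf : {B : Matrix (Fin 3) (Fin 3) (AdjoinRoot (P ^ 2)) | Bᵀ = B}.Finite := Set.toFinite _
  rw [finsum_mem_eq_finite_toFinset_sum _ hf, ← Finset.sum_filter, Finset.sum_const,
    nsmul_eq_mul, mul_one, div_le_div_iff₀ (by positivity) (by positivity)]
  have h5 : ((hf.toFinset.filter (fun B => P ^ 2 ∣ dB (B.map lft))).card : ℝ) ≤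
      3 * (Nat.card F : ℝ) ^ (10 * P.natDegree) := by
    refine le_trans (le_of_eq ?_) h4
    rw [← Set.ncard_coe_finset]
    congr 2
    ext B
    simp only [Finset.coe_filter, Set.Finite.mem_toFinset, Set.mem_ofPred_eq, dvd_dB_lft]
  calc _ ≤ (3 * (Nat.card F : ℝ) ^ (10 * P.natDegree)) * (Nat.card F : ℝ) ^ (2 * P.natDegree) :=
        mul_le_mul_of_nonneg_right h5 (by positivity)
    _ = _ := by ring

/-- The sum over large primes. -/
theorem tail_sum {F : Type} [Field F] [Fintype F] (q : ℝ) (hqF : (Fintype.card F : ℝ) = q)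
    (hq : 2 ≤ q) (D : ℕ) (T : Finset F[X]) (hT : ∀ P ∈ T, P.Monic ∧ D < P.natDegree) :
    ∑ P ∈ T, 3 / q ^ (2 * P.natDegree) ≤ 3 / q ^ D := by
  classical
  have hq0 : 0 < q := by linarith
  have hiq : 1 / q < 1 := by rw [div_lt_one hq0]; linarith
  have hiq0 : 0 < 1 / q := by positivity
  let K : ℕ := T.sup natDegree
  have hsub : T ⊆ (Finset.Ico (D + 1) (K + 1)).biUnion (mons F) := by
    intro P hP
    rw [Finset.mem_biUnion]
    refine ⟨P.natDegree, ?_, mem_mons.2 ⟨(hT P hP).1, rfl⟩⟩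
    rw [Finset.mem_Ico]
    have h1 : P.natDegree ≤ K := Finset.le_sup (f := natDegree) hP
    have h2 := (hT P hP).2
    omega
  calc ∑ P ∈ T, 3 / q ^ (2 * P.natDegree)
      ≤ ∑ P ∈ (Finset.Ico (D + 1) (K + 1)).biUnion (mons F), 3 / q ^ (2 * P.natDegree) := by
        apply Finset.sum_le_sum_of_subset_of_nonneg hsub
        intro g _ _
        positivity
    _ ≤ ∑ d ∈ Finset.Ico (D + 1) (K + 1), ∑ g ∈ mons F d, 3 / q ^ (2 * g.natDegree) := by
        rw [Finset.sum_biUnion]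
        intro d _ d' _ hdd
        show Disjoint (mons F d) (mons F d')
        rw [Finset.disjoint_left]
        intro g h7 h8
        rw [mem_mons] at h7 h8
        exact hdd (h7.2.symm.trans h8.2)
    _ ≤ ∑ d ∈ Finset.Ico (D + 1) (K + 1), 3 * (1 / q) ^ d := by
        apply Finset.sum_le_sum
        intro d _
        have h3 : ∀ g ∈ mons F d, 3 / q ^ (2 * g.natDegree) = 3 / q ^ (2 * d) := by
          intro g hg
          rw [(mem_mons.1 hg).2]
        rw [Finset.sum_congr rfl h3, Finset.sum_const, nsmul_eq_mul]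
        have h4 : ((mons F d).card : ℝ) ≤ q ^ d := by
          rw [← hqF]
          exact_mod_cast card_mons (F := F) d
        calc ((mons F d).card : ℝ) * (3 / q ^ (2 * d)) ≤ q ^ d * (3 / q ^ (2 * d)) :=
              mul_le_mul_of_nonneg_right h4 (by positivity)
          _ = 3 * (1 / q) ^ d := by
              rw [div_pow, one_pow, two_mul, pow_add]
              field_simp
    _ = 3 * ∑ k ∈ Finset.range (K - D), (1 / q) ^ (D + 1 + k) := by
        rw [← Finset.mul_sum, Finset.sum_Ico_eq_sum_range]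
        congr 3
        omega
    _ ≤ 3 * ((1 / q) ^ (D + 1) * (1 - 1 / q)⁻¹) := by
        apply mul_le_mul_of_nonneg_left _ (by norm_num)
        have h5 : ∀ k ∈ Finset.range (K - D), (1 / q) ^ (D + 1 + k) =
            (1 / q) ^ (D + 1) * (1 / q) ^ k := fun k _ => pow_add _ _ _
        rw [Finset.sum_congr rfl h5, ← Finset.mul_sum]
        apply mul_le_mul_of_nonneg_left _ (by positivity)
        exact ((hasSum_geometric_of_lt_one hiq0.le hiq).summable.sum_le_tsum _
            (fun _ _ => by positivity)).trans (tsum_geometric_of_lt_one hiq0.le hiq).le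
    _ ≤ 3 / q ^ D := by
        have h6 : (1 / q) * (1 - 1 / q)⁻¹ ≤ 1 := by
          rw [← div_eq_mul_inv, div_le_one (by linarith)]
          rw [div_le_iff₀ hq0, sub_mul, div_mul_cancel₀ _ hq0.ne']
          linarith
        calc 3 * ((1 / q) ^ (D + 1) * (1 - 1 / q)⁻¹)
            = 3 / q ^ D * ((1 / q) * (1 - 1 / q)⁻¹) := by
              rw [div_pow, one_pow, pow_succ]
              field_simp
          _ ≤ 3 / q ^ D * 1 := mul_le_mul_of_nonneg_left h6 (by positivity)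
          _ = 3 / q ^ D := mul_one _

end LML

end Pool.AVS
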