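import Pool.Agent.H27.AVS.LMLb

/-! # AVS, module LML, part c: the sum of the weights over the good matrices -/

set_option autoImplicit false

namespace Pool.AVS

open Polynomial Matrix Pool.AVR

namespace LML

/-- The good matrices. -/
def Gd {F : Type} [Field F] (n m : ℕ) (S : Finset F[X]) (N : ℕ)
    (B : Matrix (Fin 3) (Fin 3) F[X]) : Prop :=
  (∀ P ∈ S, ¬ P ^ N ∣ dB B) ∧ ¬ X ^ N ∣ dB (Binf n m B) ∧
  (∀ P : F[X], P.Monic → Irreducible P → P ∉ S → ¬ P ^ 2 ∣ dB B) ∧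
  Irreducible (cubK (ia B, ib B, ic B)) ∧ ¬ Triv B

theorem per_ind {F : Type} [Field F] (P : F[X]) (k : ℕ) (B : Matrix (Fin 3) (Fin 3) F[X]) :
    P ^ k ∣ dB ((B.map (AdjoinRoot.mk (P ^ k))).map lft) ↔ P ^ k ∣ dB B := by
  rw [dvd_dB_lft, dvd_dB]

theorem per_of_eq {F : Type} [Field F] (P : F[X]) (k k' : ℕ) (hk : k' = k)
    (φ : Matrix (Fin 3) (Fin 3) F[X] → ℝ)
    (hφ : ∀ B, φ ((B.map (AdjoinRoot.mk (P ^ k))).map lft) = φ B)
    (B : Matrix (Fin 3) (Fin 3) F[X]) :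
    φ ((B.map (AdjoinRoot.mk (P ^ k'))).map lft) = φ B := by
  subst hk
  exact hφ B

open Classical in
/-- The sums of the weights over all matrices. -/
theorem sum_all (hE : EQPStmt) (hL : LVFStmt) (F : Type) [Field F] [Finite F]
    (h2 : (2 : F) ≠ 0) (n m N : ℕ) (S : Finset F[X]) (hmn : m ≤ n) (hN : 1 ≤ N)
    (hS : ∀ P ∈ S, P.Monic ∧ Irreducible P)
    (hdeg : (∑ P ∈ S, N * P.natDegree) + N ≤ 2 * (n - m) + 1) :
    {B : Matrix (Fin 3) (Fin 3) F[X] | Bd n m B}.Finite ∧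
    ∑ᶠ B ∈ {B : Matrix (Fin 3) (Fin 3) F[X] | Bd n m B}, WS n m S N B =
      (Nat.card F : ℝ) ^ (12 * n + 6) *
        (∏ P ∈ S, (1 - 1 / (Nat.card F : ℝ) ^ (2 * P.natDegree))) *
          (1 - 1 / (Nat.card F : ℝ) ^ 2) := by
  have h := eqp_gen hE F n m N S (fun _ => N) hmn hN hS (fun _ _ => hN) hdeg
    (fun P B => wt P N B)
    (fun P hP B => (hL F h2 P N (hS P hP).1 (hS P hP).2 hN).2.2.1 B) (fun B => wt X N B)
    (fun B => (hL F h2 X N monic_X irreducible_X hN).2.2.1 B)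
  refine ⟨h.1, ?_⟩
  unfold WS
  rw [h.2]
  have h3 := loc_one hL F h2 X N monic_X irreducible_X hN
  rw [natDegree_X, mul_one] at h3
  have h4 : ∏ P ∈ S, Loc P N (fun B => wt P N B) =
      ∏ P ∈ S, (1 - 1 / (Nat.card F : ℝ) ^ (2 * P.natDegree)) :=
    Finset.prod_congr rfl (fun P hP => loc_one hL F h2 P N (hS P hP).1 (hS P hP).2 hN)
  rw [h4]
  congr 1

theorem fac_nonneg {F : Type} [Field F] [Finite F] (d : ℕ) :
    (0 : ℝ) ≤ 1 - 1 / (Nat.card F : ℝ) ^ d ∧ 1 - 1 / (Nat.card F : ℝ) ^ d ≤ 1 := by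
  have hq : (0 : ℝ) < Nat.card F := by exact_mod_cast Nat.card_pos
  constructor
  · have : 1 / (Nat.card F : ℝ) ^ d ≤ 1 := by
      rw [div_le_one (by positivity)]
      apply one_le_pow₀
      exact_mod_cast Nat.card_pos
    linarith
  · have : (0 : ℝ) ≤ 1 / (Nat.card F : ℝ) ^ d := by positivity
    linarith

open Classical in
theorem prod_split {F : Type} [Field F] (S : Finset F[X]) (P₀ : F[X]) (hP₀ : P₀ ∈ S)
    (f : F[X] → ℝ) (c : ℝ) :
    ∏ P ∈ S, (f P * (if P = P₀ then c else 1)) = (∏ P ∈ S, f P) * c := by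
  rw [Finset.prod_mul_distrib, Finset.prod_ite_eq' S P₀ (fun _ => c), if_pos hP₀]

open Classical in
/-- The sums of the weights over the matrices that are bad at a prime of `S`. -/
theorem sum_badP (hE : EQPStmt) (hL : LVFStmt) (F : Type) [Field F] [Finite F]
    (h2 : (2 : F) ≠ 0) (n m N : ℕ) (S : Finset F[X]) (hmn : m ≤ n) (hN : 1 ≤ N)
    (hS : ∀ P ∈ S, P.Monic ∧ Irreducible P)
    (hdeg : (∑ P ∈ S, N * P.natDegree) + N ≤ 2 * (n - m) + 1) (P₀ : F[X]) (hP₀ : P₀ ∈ S)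
    (ε : ℝ) (hε : 0 ≤ ε)
    (h5 : ({t : AdjoinRoot (P₀ ^ N) × AdjoinRoot (P₀ ^ N) × AdjoinRoot (P₀ ^ N) |
      disc t.1 t.2.1 t.2.2 = 0}.ncard : ℝ) ≤ ε * (Nat.card F : ℝ) ^ (3 * (N * P₀.natDegree))) :
    ∑ᶠ B ∈ {B : Matrix (Fin 3) (Fin 3) F[X] | Bd n m B},
      WS n m S N B * (if P₀ ^ N ∣ dB B then 1 else 0) ≤
      (Nat.card F : ℝ) ^ (12 * n + 6) * ε := by
  have h := eqp_gen hE F n m N S (fun _ => N) hmn hN hS (fun _ _ => hN) hdeg
    (fun P B => wt P N B * (if P = P₀ then (if P₀ ^ N ∣ dB B then 1 else 0) else 1))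
    (fun P hP B => by
      have h3 := (hL F h2 P N (hS P hP).1 (hS P hP).2 hN).2.2.1 B
      show wt P N _ * (if P = P₀ then (if P₀ ^ N ∣ dB _ then (1 : ℝ) else 0) else 1) = _
      rw [h3]
      by_cases h4 : P = P₀
      · subst h4
        rw [if_pos rfl, if_pos rfl]
        simp only [per_ind]
      · rw [if_neg h4, if_neg h4]) (fun B => wt X N B)
    (fun B => (hL F h2 X N monic_X irreducible_X hN).2.2.1 B)
  have h3 := loc_one hL F h2 X N monic_X irreducible_X hN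
  rw [natDegree_X, mul_one] at h3
  have h6 : ∀ B ∈ {B : Matrix (Fin 3) (Fin 3) F[X] | Bd n m B},
      WS n m S N B * (if P₀ ^ N ∣ dB B then (1 : ℝ) else 0) =
      (∏ P ∈ S, wt P N B * (if P = P₀ then (if P₀ ^ N ∣ dB B then (1 : ℝ) else 0) else 1)) *
        wt X N (Binf n m B) := by
    intro B _
    rw [prod_split S P₀ hP₀ (fun P => wt P N B)]
    unfold WS
    ring
  rw [finsum_mem_congr rfl h6, h.2]
  have h7 : Loc P₀ N (fun B => wt P₀ N B *
      (if P₀ = P₀ then (if P₀ ^ N ∣ dB B then 1 else 0) else 1)) ≤ ε := by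
    have h8 := loc_bad hL F h2 P₀ N (hS P₀ hP₀).1 (hS P₀ hP₀).2 hN ε h5
    simpa using h8
  have h9 : ∀ P ∈ S, P ≠ P₀ → Loc P N (fun B => wt P N B *
      (if P = P₀ then (if P₀ ^ N ∣ dB B then 1 else 0) else 1)) =
        1 - 1 / (Nat.card F : ℝ) ^ (2 * P.natDegree) := by
    intro P hP hne
    rw [← loc_one hL F h2 P N (hS P hP).1 (hS P hP).2 hN]
    congr 1
    funext B
    rw [if_neg hne, mul_one]
  have h10 : ∏ P ∈ S, Loc P N (fun B => wt P N B *
      (if P = P₀ then (if P₀ ^ N ∣ dB B then 1 else 0) else 1)) ≤ ε := by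
    rw [← Finset.mul_prod_erase S _ hP₀]
    have h11 : ∏ P ∈ S.erase P₀, Loc P N (fun B => wt P N B *
        (if P = P₀ then (if P₀ ^ N ∣ dB B then 1 else 0) else 1)) ≤ 1 := by
      apply Finset.prod_le_one
      · intro P hP
        rw [h9 P (Finset.mem_of_mem_erase hP) (Finset.ne_of_mem_erase hP)]
        exact (fac_nonneg _).1
      · intro P hP
        rw [h9 P (Finset.mem_of_mem_erase hP) (Finset.ne_of_mem_erase hP)]
        exact (fac_nonneg _).2
    have h12 : 0 ≤ ∏ P ∈ S.erase P₀, Loc P N (fun B => wt P N B *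
        (if P = P₀ then (if P₀ ^ N ∣ dB B then 1 else 0) else 1)) := by
      apply Finset.prod_nonneg
      intro P hP
      rw [h9 P (Finset.mem_of_mem_erase hP) (Finset.ne_of_mem_erase hP)]
      exact (fac_nonneg _).1
    calc _ ≤ ε * _ := mul_le_mul_of_nonneg_right h7 h12
      _ ≤ ε * 1 := mul_le_mul_of_nonneg_left h11 hε
      _ = ε := mul_one _
  have h13 : Loc X N (fun B => wt X N B) = 1 - 1 / (Nat.card F : ℝ) ^ 2 := h3
  rw [h13]
  calc _ ≤ (Nat.card F : ℝ) ^ (12 * n + 6) * ε * (1 - 1 / (Nat.card F : ℝ) ^ 2) :=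
        mul_le_mul_of_nonneg_right (mul_le_mul_of_nonneg_left h10 (by positivity))
          (fac_nonneg _).1
    _ ≤ (Nat.card F : ℝ) ^ (12 * n + 6) * ε * 1 :=
        mul_le_mul_of_nonneg_left (fac_nonneg _).2 (by positivity)
    _ = _ := mul_one _

open Classical in
/-- The sums of the weights over the matrices that are bad at infinity. -/
theorem sum_badI (hE : EQPStmt) (hL : LVFStmt) (F : Type) [Field F] [Finite F]
    (h2 : (2 : F) ≠ 0) (n m N : ℕ) (S : Finset F[X]) (hmn : m ≤ n) (hN : 1 ≤ N)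
    (hS : ∀ P ∈ S, P.Monic ∧ Irreducible P)
    (hdeg : (∑ P ∈ S, N * P.natDegree) + N ≤ 2 * (n - m) + 1)
    (ε : ℝ) (hε : 0 ≤ ε)
    (h5 : ({t : AdjoinRoot ((X : F[X]) ^ N) × AdjoinRoot ((X : F[X]) ^ N) ×
      AdjoinRoot ((X : F[X]) ^ N) |
      disc t.1 t.2.1 t.2.2 = 0}.ncard : ℝ) ≤
        ε * (Nat.card F : ℝ) ^ (3 * (N * (X : F[X]).natDegree))) :
    ∑ᶠ B ∈ {B : Matrix (Fin 3) (Fin 3) F[X] | Bd n m B},
      WS n m S N B * (if X ^ N ∣ dB (Binf n m B) then 1 else 0) ≤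
      (Nat.card F : ℝ) ^ (12 * n + 6) * ε := by
  have h := eqp_gen hE F n m N S (fun _ => N) hmn hN hS (fun _ _ => hN) hdeg
    (fun P B => wt P N B)
    (fun P hP B => (hL F h2 P N (hS P hP).1 (hS P hP).2 hN).2.2.1 B)
    (fun B => wt X N B * (if X ^ N ∣ dB B then 1 else 0))
    (fun B => by
      have h3 := (hL F h2 X N monic_X irreducible_X hN).2.2.1 B
      show wt X N _ * (if X ^ N ∣ dB _ then (1 : ℝ) else 0) = _
      rw [h3]
      simp only [per_ind])
  have h6 : ∀ B ∈ {B : Matrix (Fin 3) (Fin 3) F[X] | Bd n m B},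
      WS n m S N B * (if X ^ N ∣ dB (Binf n m B) then (1 : ℝ) else 0) =
      (∏ P ∈ S, wt P N B) *
        (wt X N (Binf n m B) * (if X ^ N ∣ dB (Binf n m B) then (1 : ℝ) else 0)) := by
    intro B _
    unfold WS
    ring
  rw [finsum_mem_congr rfl h6, h.2]
  have h7 := loc_bad hL F h2 X N monic_X irreducible_X hN ε h5
  have h4 : ∏ P ∈ S, Loc P N (fun B => wt P N B) ≤ 1 := by
    have h8 : ∀ P ∈ S, Loc P N (fun B => wt P N B) =
        1 - 1 / (Nat.card F : ℝ) ^ (2 * P.natDegree) :=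
      fun P hP => loc_one hL F h2 P N (hS P hP).1 (hS P hP).2 hN
    rw [Finset.prod_congr rfl h8]
    exact Finset.prod_le_one (fun P _ => (fac_nonneg _).1) (fun P _ => (fac_nonneg _).2)
  have h4' : 0 ≤ ∏ P ∈ S, Loc P N (fun B => wt P N B) := by
    have h8 : ∀ P ∈ S, Loc P N (fun B => wt P N B) =
        1 - 1 / (Nat.card F : ℝ) ^ (2 * P.natDegree) :=
      fun P hP => loc_one hL F h2 P N (hS P hP).1 (hS P hP).2 hN
    rw [Finset.prod_congr rfl h8]
    exact Finset.prod_nonneg (fun P _ => (fac_nonneg _).1)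
  calc _ ≤ (Nat.card F : ℝ) ^ (12 * n + 6) * (∏ P ∈ S, Loc P N (fun B => wt P N B)) * ε :=
        mul_le_mul_of_nonneg_left h7 (mul_nonneg (by positivity) h4')
    _ ≤ (Nat.card F : ℝ) ^ (12 * n + 6) * 1 * ε :=
        mul_le_mul_of_nonneg_right (mul_le_mul_of_nonneg_left h4 (by positivity)) hε
    _ = _ := by ring

open Classical in
/-- The sums of the weights over the matrices with discriminant divisible by the square of another
prime. -/
theorem sum_oth (hE : EQPStmt) (hL : LVFStmt) (hD : LDEStmt) (F : Type) [Field F] [Finite F]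
    (h2 : (2 : F) ≠ 0) (n m N : ℕ) (S : Finset F[X]) (hmn : m ≤ n) (hN : 1 ≤ N)
    (hS : ∀ P ∈ S, P.Monic ∧ Irreducible P) (P₀ : F[X]) (hP₀ : P₀ ∉ S) (hPm : P₀.Monic)
    (hPi : Irreducible P₀)
    (hdeg : 2 * P₀.natDegree + (∑ P ∈ S, N * P.natDegree) + N ≤ 2 * (n - m) + 1) :
    ∑ᶠ B ∈ {B : Matrix (Fin 3) (Fin 3) F[X] | Bd n m B},
      WS n m S N B * (if P₀ ^ 2 ∣ dB B then 1 else 0) ≤
      (Nat.card F : ℝ) ^ (12 * n + 6) * (3 / (Nat.card F : ℝ) ^ (2 * P₀.natDegree)) := by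
  have hne : ∀ P ∈ S, P ≠ P₀ := by
    rintro P hP rfl
    exact hP₀ hP
  have hS' : ∀ P ∈ insert P₀ S, P.Monic ∧ Irreducible P := by
    intro P hP
    rcases Finset.mem_insert.1 hP with rfl | h
    · exact ⟨hPm, hPi⟩
    · exact hS P h
  have h := eqp_gen hE F n m N (insert P₀ S) (fun P => if P = P₀ then 2 else N) hmn hN hS'
    (fun P _ => by
      show 1 ≤ if P = P₀ then 2 else N
      split_ifs
      · norm_num
      · exact hN)
    (by
      rw [Finset.sum_insert hP₀, if_pos rfl]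
      have : ∑ x ∈ S, (if x = P₀ then 2 else N) * x.natDegree = ∑ P ∈ S, N * P.natDegree :=
        Finset.sum_congr rfl (fun P hP => by rw [if_neg (hne P hP)])
      rw [this]
      exact hdeg)
    (fun P B => if P = P₀ then (if P₀ ^ 2 ∣ dB B then 1 else 0) else wt P N B)
    (fun P hP B => by
      by_cases h4 : P = P₀
      · subst h4
        exact per_of_eq P 2 _ (if_pos rfl)
          (fun B => if P = P then (if P ^ 2 ∣ dB B then (1 : ℝ) else 0) else wt P N B)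
          (fun B => by simp only [if_true, per_ind]) B
      · exact per_of_eq P N _ (if_neg h4)
          (fun B => if P = P₀ then (if P₀ ^ 2 ∣ dB B then (1 : ℝ) else 0) else wt P N B)
          (fun B => by
            simp only [if_neg h4]
            exact (hL F h2 P N (hS' P hP).1 (hS' P hP).2 hN).2.2.1 B) B)
    (fun B => wt X N B)
    (fun B => (hL F h2 X N monic_X irreducible_X hN).2.2.1 B)
  have h3 := loc_one hL F h2 X N monic_X irreducible_X hN
  rw [natDegree_X, mul_one] at h3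
  have h6 : ∀ B ∈ {B : Matrix (Fin 3) (Fin 3) F[X] | Bd n m B},
      WS n m S N B * (if P₀ ^ 2 ∣ dB B then (1 : ℝ) else 0) =
      (∏ P ∈ insert P₀ S, (if P = P₀ then (if P₀ ^ 2 ∣ dB B then (1 : ℝ) else 0)
        else wt P N B)) * wt X N (Binf n m B) := by
    intro B _
    rw [Finset.prod_insert hP₀, if_pos rfl]
    have : ∏ x ∈ S, (if x = P₀ then (if P₀ ^ 2 ∣ dB B then (1 : ℝ) else 0) else wt x N B) =
        ∏ P ∈ S, wt P N B := Finset.prod_congr rfl (fun P hP => by rw [if_neg (hne P hP)])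
    rw [this]
    unfold WS
    ring
  rw [finsum_mem_congr rfl h6, h.2, Finset.prod_insert hP₀]
  have h7 : Loc P₀ (if P₀ = P₀ then 2 else N)
      (fun B => if P₀ = P₀ then (if P₀ ^ 2 ∣ dB B then 1 else 0) else wt P₀ N B) ≤
        3 / (Nat.card F : ℝ) ^ (2 * P₀.natDegree) := by
    simp only [if_true]
    exact loc_two hD hL F h2 P₀ hPm hPi
  have h8 : ∀ P ∈ S, Loc P (if P = P₀ then 2 else N)
      (fun B => if P = P₀ then (if P₀ ^ 2 ∣ dB B then 1 else 0) else wt P N B) =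
        1 - 1 / (Nat.card F : ℝ) ^ (2 * P.natDegree) := by
    intro P hP
    simp only [if_neg (hne P hP)]
    exact loc_one hL F h2 P N (hS P hP).1 (hS P hP).2 hN
  have h9 : ∏ P ∈ S, Loc P (if P = P₀ then 2 else N)
      (fun B => if P = P₀ then (if P₀ ^ 2 ∣ dB B then 1 else 0) else wt P N B) ≤ 1 := by
    rw [Finset.prod_congr rfl h8]
    exact Finset.prod_le_one (fun P _ => (fac_nonneg _).1) (fun P _ => (fac_nonneg _).2)
  have h10 : 0 ≤ ∏ P ∈ S, Loc P (if P = P₀ then 2 else N)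
      (fun B => if P = P₀ then (if P₀ ^ 2 ∣ dB B then 1 else 0) else wt P N B) := by
    rw [Finset.prod_congr rfl h8]
    exact Finset.prod_nonneg (fun P _ => (fac_nonneg _).1)
  have h13 : Loc X N (fun B => wt X N B) = 1 - 1 / (Nat.card F : ℝ) ^ 2 := h3
  rw [h13]
  have h14 : (0 : ℝ) ≤ 3 / (Nat.card F : ℝ) ^ (2 * P₀.natDegree) := by positivity
  calc _ ≤ (Nat.card F : ℝ) ^ (12 * n + 6) *
          (3 / (Nat.card F : ℝ) ^ (2 * P₀.natDegree) * 1) * (1 - 1 / (Nat.card F : ℝ) ^ 2) := by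
        apply mul_le_mul_of_nonneg_right _ (fac_nonneg _).1
        apply mul_le_mul_of_nonneg_left _ (by positivity)
        exact mul_le_mul h7 h9 h10 h14
    _ ≤ (Nat.card F : ℝ) ^ (12 * n + 6) *
          (3 / (Nat.card F : ℝ) ^ (2 * P₀.natDegree) * 1) * 1 :=
        mul_le_mul_of_nonneg_left (fac_nonneg _).2 (by positivity)
    _ = _ := by ring

end LML

end Pool.AVS
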