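import Pool.Agent.H27.AVS.LMLc

/-! # AVS, module LML, part d: the lower bound for the sum of the weights over the good matrices -/

set_option autoImplicit false

namespace Pool.AVS

open Polynomial Matrix Pool.AVR

namespace LML

/-- The constant bounding the weights. -/
noncomputable def CS {F : Type} [Field F] (S : Finset F[X]) : ℝ :=
  (∏ P ∈ S, 2 * ((Nat.card F : ℝ) ^ P.natDegree + 1)) * (2 * ((Nat.card F : ℝ) ^ 1 + 1))

theorem CS_pos {F : Type} [Field F] (S : Finset F[X]) : 0 < CS S := by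
  unfold CS
  positivity

theorem WS_bound (hL : LVFStmt) (F : Type) [Field F] [Finite F] (h2 : (2 : F) ≠ 0) (n m N : ℕ)
    (S : Finset F[X]) (hN : 1 ≤ N) (hS : ∀ P ∈ S, P.Monic ∧ Irreducible P)
    (B : Matrix (Fin 3) (Fin 3) F[X]) : 0 ≤ WS n m S N B ∧ WS n m S N B ≤ CS S := by
  have h1 : ∀ P ∈ S, 0 ≤ wt P N B ∧ wt P N B ≤ 2 * ((Nat.card F : ℝ) ^ P.natDegree + 1) :=
    fun P hP => (hL F h2 P N (hS P hP).1 (hS P hP).2 hN).2.2.2.1 B
  have h3 := (hL F h2 X N monic_X irreducible_X hN).2.2.2.1 (Binf n m B)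
  rw [natDegree_X] at h3
  unfold WS CS
  constructor
  · exact mul_nonneg (Finset.prod_nonneg (fun P hP => (h1 P hP).1)) h3.1
  · apply mul_le_mul _ h3.2 h3.1
    · exact Finset.prod_nonneg (fun P _ => by positivity)
    · exact Finset.prod_le_prod (fun P hP => (h1 P hP).1) (fun P hP => (h1 P hP).2)

open Classical in
/-- The pointwise inequality. -/
theorem pointwise (F : Type) [Field F] [Fintype F] (n m N D : ℕ) (B : Matrix (Fin 3) (Fin 3) F[X])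
    (W C : ℝ) (hW0 : 0 ≤ W) (hWC : W ≤ C) (hf : (ia B, ib B, ic B) ∈ Fam F n)
    (hch : (AA F[X] * B).charpoly = cub (ia B) (ib B) (ic B)) :
    W ≤ (if Gd n m (prs F D) N B then W else 0) +
      (∑ P ∈ prs F D, W * (if P ^ N ∣ dB B then 1 else 0)) +
      W * (if X ^ N ∣ dB (Binf n m B) then 1 else 0) +
      (∑ P ∈ prs F (n / 2) \ prs F D, W * (if P ^ 2 ∣ dB B then 1 else 0)) +
      C * (if (∃ P : F[X], P.Monic ∧ Irreducible P ∧ n < 2 * P.natDegree ∧ P ^ 2 ∣ dB B)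
        then 1 else 0) +
      C * (if (∃ f ∈ Fam F n, ¬ Irreducible (cubK f) ∧ (AA F[X] * B).charpoly = cubP f)
        then 1 else 0) +
      C * (if Triv B then 1 else 0) := by
  have hC : 0 ≤ C := hW0.trans hWC
  have n1 : 0 ≤ (if Gd n m (prs F D) N B then W else 0) := by
    split_ifs
    · exact hW0
    · exact le_rfl
  have n2 : ∀ P ∈ prs F D, 0 ≤ W * (if P ^ N ∣ dB B then (1 : ℝ) else 0) := by
    intro P _
    apply mul_nonneg hW0
    split_ifs <;> norm_num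
  have n2' := Finset.sum_nonneg n2
  have n3 : 0 ≤ W * (if X ^ N ∣ dB (Binf n m B) then (1 : ℝ) else 0) := by
    apply mul_nonneg hW0
    split_ifs <;> norm_num
  have n4 : ∀ P ∈ prs F (n / 2) \ prs F D, 0 ≤ W * (if P ^ 2 ∣ dB B then (1 : ℝ) else 0) := by
    intro P _
    apply mul_nonneg hW0
    split_ifs <;> norm_num
  have n4' := Finset.sum_nonneg n4
  have n5 : 0 ≤ C * (if (∃ P : F[X], P.Monic ∧ Irreducible P ∧ n < 2 * P.natDegree ∧
      P ^ 2 ∣ dB B) then (1 : ℝ) else 0) := by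
    apply mul_nonneg hC
    split_ifs <;> norm_num
  have n6 : 0 ≤ C * (if (∃ f ∈ Fam F n, ¬ Irreducible (cubK f) ∧
      (AA F[X] * B).charpoly = cubP f) then (1 : ℝ) else 0) := by
    apply mul_nonneg hC
    split_ifs <;> norm_num
  have n7 : 0 ≤ C * (if Triv B then (1 : ℝ) else 0) := by
    apply mul_nonneg hC
    split_ifs <;> norm_num
  by_cases g : Gd n m (prs F D) N B
  · rw [if_pos g] at n1 ⊢
    linarith
  · by_cases g1 : ∃ P ∈ prs F D, P ^ N ∣ dB B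
    · obtain ⟨P, hP, hd⟩ := g1
      have h := Finset.single_le_sum n2 hP
      rw [if_pos hd, mul_one] at h
      linarith
    by_cases g2 : X ^ N ∣ dB (Binf n m B)
    · rw [if_pos g2, mul_one] at n3 ⊢
      linarith
    by_cases g3 : ∃ P : F[X], P.Monic ∧ Irreducible P ∧ P ∉ prs F D ∧ P ^ 2 ∣ dB B
    · obtain ⟨P, h1, h2, h3, h4⟩ := g3
      by_cases h5 : n < 2 * P.natDegree
      · have h6 : ∃ P : F[X], P.Monic ∧ Irreducible P ∧ n < 2 * P.natDegree ∧ P ^ 2 ∣ dB B :=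
          ⟨P, h1, h2, h5, h4⟩
        rw [if_pos h6, mul_one] at n5 ⊢
        linarith
      · have h6 : P ∈ prs F (n / 2) \ prs F D := by
          rw [Finset.mem_sdiff]
          exact ⟨mem_prs.2 ⟨h1, h2, by omega⟩, h3⟩
        have h := Finset.single_le_sum n4 h6
        rw [if_pos h4, mul_one] at h
        linarith
    by_cases g4 : Irreducible (cubK (ia B, ib B, ic B))
    · by_cases g5 : Triv B
      · rw [if_pos g5, mul_one] at n7 ⊢
        linarith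
      · exfalso
        apply g
        refine ⟨?_, g2, ?_, g4, g5⟩
        · intro P hP hd
          exact g1 ⟨P, hP, hd⟩
        · intro P h1 h2 h3 h4
          exact g3 ⟨P, h1, h2, h3, h4⟩
    · have h6 : ∃ f ∈ Fam F n, ¬ Irreducible (cubK f) ∧ (AA F[X] * B).charpoly = cubP f :=
        ⟨(ia B, ib B, ic B), hf, g4, hch⟩
      rw [if_pos h6, mul_one] at n6 ⊢
      linarith

open Classical in
theorem card_ind {F : Type} [Field F] (s : Set (Matrix (Fin 3) (Fin 3) F[X])) (hs : s.Finite)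
    (p : Matrix (Fin 3) (Fin 3) F[X] → Prop) (C : ℝ) :
    ∑ B ∈ hs.toFinset, C * (if p B then (1 : ℝ) else 0) = C * ({B | B ∈ s ∧ p B}.ncard : ℝ) := by
  rw [← Finset.mul_sum, ← Finset.sum_filter, Finset.sum_const, nsmul_eq_mul, mul_one,
    ← Set.ncard_coe_finset]
  congr 3
  ext B
  simp only [Finset.coe_filter, Set.Finite.mem_toFinset, Set.mem_ofPred_eq]

open Classical in
theorem Tm_lower (hE : EQPStmt) (hL : LVFStmt) (hFD : FDNStmt) (hD : LDEStmt) (hTB : TBLStmt)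
    (hR : REDStmt) (hTV : TRVStmt) (hBI : BINStmt) (hCH : CHIStmt) (F : Type) [Field F]
    [Fintype F] (h2 : (2 : F) ≠ 0) (q : ℝ) (hq : q = Nat.card F) (hq2 : 2 ≤ q) (M₀ : ℕ) (δ : ℝ)
    (hδ : 0 < δ) :
    ∃ (S : Finset F[X]) (N : ℕ), 1 ≤ N ∧ (∀ P ∈ S, P.Monic ∧ Irreducible P) ∧
      ∃ N₁ : ℕ, ∀ n : ℕ, N₁ ≤ n → ∀ m : ℕ, m ≤ M₀ →
        q ^ (12 * n + 6) * ((1 - 1 / q) * (1 - 1 / q ^ 2) - δ) ≤
          ∑ᶠ B ∈ {B : Matrix (Fin 3) (Fin 3) F[X] | Bd n m B ∧ Gd n m S N B}, WS n m S N B := by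
  have hqF : (Fintype.card F : ℝ) = q := by rw [hq, Nat.card_eq_fintype_card]
  have hq0 : 0 < q := by linarith
  -- choice of D
  obtain ⟨D, hDD⟩ := exists_pow_lt_of_lt_one (show 0 < δ / 12 by positivity)
    (show (1 / q) < 1 by rw [div_lt_one hq0]; linarith)
  have hD1 : 3 / q ^ D ≤ δ / 4 := by
    rw [div_pow, one_pow] at hDD
    have : 3 / q ^ D = 3 * (1 / q ^ D) := by ring
    rw [this]
    linarith
  set S := prs F D with hSdef
  have hS : ∀ P ∈ S, P.Monic ∧ Irreducible P := fun P hP => ⟨(mem_prs.1 hP).1, (mem_prs.1 hP).2.1⟩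
  -- choice of N
  set ε₁ : ℝ := δ / (4 * (S.card + 1)) with hε₁
  have hε₁0 : 0 < ε₁ := by positivity
  have hNev : ∀ᶠ N : ℕ in Filter.atTop, ∀ P ∈ insert X S,
      ({t : AdjoinRoot (P ^ N) × AdjoinRoot (P ^ N) × AdjoinRoot (P ^ N) |
        disc t.1 t.2.1 t.2.2 = 0}.ncard : ℝ) ≤
          ε₁ * (Nat.card F : ℝ) ^ (3 * (N * P.natDegree)) := by
    rw [Filter.eventually_all_finset]
    intro P hP
    have hPmi : P.Monic ∧ Irreducible P := by
      rcases Finset.mem_insert.1 hP with rfl | h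
      · exact ⟨monic_X, irreducible_X⟩
      · exact hS P h
    obtain ⟨N₀, h⟩ := hFD F h2 P hPmi.1 hPmi.2 ε₁ hε₁0
    exact Filter.eventually_atTop.2 ⟨N₀, h⟩
  obtain ⟨N, hN1, hN⟩ := (hNev.and (Filter.eventually_ge_atTop 1)).exists
  -- choice of n
  set C := CS S with hC
  have hC0 : 0 < C := CS_pos S
  set ε₂ : ℝ := δ / (12 * C) with hε₂
  have hε₂0 : 0 < ε₂ := by positivity
  have hnev : ∀ᶠ n : ℕ in Filter.atTop, ∀ m ∈ Finset.range (M₀ + 1),
      ({B : Matrix (Fin 3) (Fin 3) F[X] | Bd n m B ∧ ∃ P : F[X], P.Monic ∧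
        Irreducible P ∧ n < 2 * P.natDegree ∧ P ^ 2 ∣ dB B}.ncard : ℝ) ≤
        ε₂ * (Nat.card F : ℝ) ^ (12 * n + 6) := by
    rw [Filter.eventually_all_finset]
    intro m _
    obtain ⟨N₀, h⟩ := hTB F h2 m ε₂ hε₂0
    exact Filter.eventually_atTop.2 ⟨N₀, h⟩
  obtain ⟨D₁, hD₁⟩ := hR F h2 ε₂ hε₂0
  obtain ⟨D₂, hD₂⟩ := hTV F h2 ε₂ hε₂0
  obtain ⟨N₂, hN₂⟩ := Filter.eventually_atTop.1 hnev
  refine ⟨S, N, hN, hS, N₂ + D₁ + D₂ + 2 * M₀ + (∑ P ∈ S, N * P.natDegree) + N, ?_⟩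
  intro n hn m hm
  have hmn : m ≤ n := by omega
  have hdeg : (∑ P ∈ S, N * P.natDegree) + N ≤ 2 * (n - m) + 1 := by omega
  obtain ⟨hfin, hall⟩ := sum_all hE hL F h2 n m N S hmn hN hS hdeg
  have hWb := WS_bound hL F h2 n m N S hN hS
  set 𝓑 := hfin.toFinset with h𝓑
  have hmem : ∀ B, B ∈ 𝓑 ↔ Bd n m B := by
    intro B
    rw [h𝓑, Set.Finite.mem_toFinset, Set.mem_ofPred_eq]
  -- evaluation of the sums
  have e0 : ∑ B ∈ 𝓑, WS n m S N B =
      q ^ (12 * n + 6) * (∏ P ∈ S, (1 - 1 / q ^ (2 * P.natDegree))) * (1 - 1 / q ^ 2) := by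
    rw [← finsum_mem_eq_finite_toFinset_sum _ hfin, hall, ← hq]
  have e1 : ∑ B ∈ 𝓑, (if Gd n m S N B then WS n m S N B else 0) =
      ∑ᶠ B ∈ {B : Matrix (Fin 3) (Fin 3) F[X] | Bd n m B ∧ Gd n m S N B}, WS n m S N B := by
    have hf : {B : Matrix (Fin 3) (Fin 3) F[X] | Bd n m B ∧ Gd n m S N B}.Finite :=
      hfin.subset (fun B hB => hB.1)
    rw [finsum_mem_eq_finite_toFinset_sum _ hf, ← Finset.sum_filter]
    apply Finset.sum_congr
    · ext B
      simp only [Finset.mem_filter, hmem, Set.Finite.mem_toFinset, Set.mem_ofPred_eq]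
    · intros
      rfl
  have e2 : ∀ P ∈ S, ∑ B ∈ 𝓑, WS n m S N B * (if P ^ N ∣ dB B then 1 else 0) ≤
      q ^ (12 * n + 6) * ε₁ := by
    intro P hP
    rw [← finsum_mem_eq_finite_toFinset_sum _ hfin, hq]
    exact sum_badP hE hL F h2 n m N S hmn hN hS hdeg P hP ε₁ hε₁0.le
      (hN1 P (Finset.mem_insert_of_mem hP))
  have e3 : ∑ B ∈ 𝓑, WS n m S N B * (if X ^ N ∣ dB (Binf n m B) then 1 else 0) ≤
      q ^ (12 * n + 6) * ε₁ := by
    rw [← finsum_mem_eq_finite_toFinset_sum _ hfin, hq]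
    exact sum_badI hE hL F h2 n m N S hmn hN hS hdeg ε₁ hε₁0.le
      (hN1 X (Finset.mem_insert_self _ _))
  have e4 : ∀ P ∈ prs F (n / 2) \ S,
      ∑ B ∈ 𝓑, WS n m S N B * (if P ^ 2 ∣ dB B then 1 else 0) ≤
      q ^ (12 * n + 6) * (3 / q ^ (2 * P.natDegree)) := by
    intro P hP
    obtain ⟨hP1, hP2⟩ := Finset.mem_sdiff.1 hP
    obtain ⟨hP3, hP4, hP5⟩ := mem_prs.1 hP1
    rw [← finsum_mem_eq_finite_toFinset_sum _ hfin, hq]
    refine sum_oth hE hL hD F h2 n m N S hmn hN hS P hP2 hP3 hP4 ?_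
    omega
  have e5 : ∑ B ∈ 𝓑, C * (if (∃ P : F[X], P.Monic ∧ Irreducible P ∧ n < 2 * P.natDegree ∧
      P ^ 2 ∣ dB B) then (1 : ℝ) else 0) ≤ C * (ε₂ * q ^ (12 * n + 6)) := by
    rw [card_ind]
    apply mul_le_mul_of_nonneg_left _ hC0.le
    rw [hq]
    exact hN₂ n (by omega) m (Finset.mem_range.2 (by omega))
  have e6 : ∑ B ∈ 𝓑, C * (if (∃ f ∈ Fam F n, ¬ Irreducible (cubK f) ∧
      (AA F[X] * B).charpoly = cubP f) then (1 : ℝ) else 0) ≤ C * (ε₂ * q ^ (12 * n + 6)) := by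
    rw [card_ind]
    apply mul_le_mul_of_nonneg_left _ hC0.le
    rw [hq]
    exact hD₁ n m (by omega)
  have e7 : ∑ B ∈ 𝓑, C * (if Triv B then (1 : ℝ) else 0) ≤ C * (ε₂ * q ^ (12 * n + 6)) := by
    rw [card_ind]
    apply mul_le_mul_of_nonneg_left _ hC0.le
    rw [hq]
    exact hD₂ n m (by omega)
  -- the sum of the pointwise inequalities
  have hsum : ∑ B ∈ 𝓑, WS n m S N B ≤
      (∑ B ∈ 𝓑, (if Gd n m S N B then WS n m S N B else 0)) +
      (∑ P ∈ S, ∑ B ∈ 𝓑, WS n m S N B * (if P ^ N ∣ dB B then 1 else 0)) +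
      (∑ B ∈ 𝓑, WS n m S N B * (if X ^ N ∣ dB (Binf n m B) then 1 else 0)) +
      (∑ P ∈ prs F (n / 2) \ S, ∑ B ∈ 𝓑, WS n m S N B * (if P ^ 2 ∣ dB B then 1 else 0)) +
      (∑ B ∈ 𝓑, C * (if (∃ P : F[X], P.Monic ∧ Irreducible P ∧ n < 2 * P.natDegree ∧
        P ^ 2 ∣ dB B) then (1 : ℝ) else 0)) +
      (∑ B ∈ 𝓑, C * (if (∃ f ∈ Fam F n, ¬ Irreducible (cubK f) ∧
        (AA F[X] * B).charpoly = cubP f) then (1 : ℝ) else 0)) +
      ∑ B ∈ 𝓑, C * (if Triv B then (1 : ℝ) else 0) := by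
    rw [Finset.sum_comm (s := S), Finset.sum_comm (s := prs F (n / 2) \ S)]
    rw [← Finset.sum_add_distrib, ← Finset.sum_add_distrib, ← Finset.sum_add_distrib,
      ← Finset.sum_add_distrib, ← Finset.sum_add_distrib, ← Finset.sum_add_distrib]
    apply Finset.sum_le_sum
    intro B hB
    rw [hmem] at hB
    have hb := hBI F n m hmn B hB
    exact pointwise F n m N D B (WS n m S N B) C (hWb B).1 (hWb B).2 hb.2.1
      (hCH F[X] B hB.1).1
  have e2' : ∑ P ∈ S, ∑ B ∈ 𝓑, WS n m S N B * (if P ^ N ∣ dB B then 1 else 0) ≤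
      S.card * (q ^ (12 * n + 6) * ε₁) := by
    refine (Finset.sum_le_sum e2).trans ?_
    rw [Finset.sum_const, nsmul_eq_mul]
  have e4' : ∑ P ∈ prs F (n / 2) \ S, ∑ B ∈ 𝓑, WS n m S N B *
      (if P ^ 2 ∣ dB B then 1 else 0) ≤ q ^ (12 * n + 6) * (δ / 4) := by
    refine (Finset.sum_le_sum e4).trans ?_
    rw [← Finset.mul_sum]
    apply mul_le_mul_of_nonneg_left _ (by positivity)
    refine le_trans (tail_sum q hqF hq2 D _ ?_) hD1
    intro P hP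
    obtain ⟨hP1, hP2⟩ := Finset.mem_sdiff.1 hP
    obtain ⟨hP3, hP4, hP5⟩ := mem_prs.1 hP1
    refine ⟨hP3, ?_⟩
    by_contra hlt
    exact hP2 (mem_prs.2 ⟨hP3, hP4, by omega⟩)
  -- the main term
  have hprod := euler_lower q hqF (by linarith) S hS
  have hfac : 0 ≤ 1 - 1 / q ^ 2 := by
    rw [hq]
    exact (fac_nonneg (F := F) 2).1
  have e0' : q ^ (12 * n + 6) * ((1 - 1 / q) * (1 - 1 / q ^ 2)) ≤ ∑ B ∈ 𝓑, WS n m S N B := by
    rw [e0, mul_assoc]
    apply mul_le_mul_of_nonneg_left _ (by positivity)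
    exact mul_le_mul_of_nonneg_right hprod hfac
  have hs1 : (S.card : ℝ) * (q ^ (12 * n + 6) * ε₁) + q ^ (12 * n + 6) * ε₁ =
      q ^ (12 * n + 6) * (δ / 4) := by
    rw [hε₁]
    field_simp
  have hs2 : C * (ε₂ * q ^ (12 * n + 6)) = q ^ (12 * n + 6) * (δ / 12) := by
    rw [hε₂]
    field_simp
  rw [← e1]
  rw [hs2] at e5 e6 e7
  have hfinal : q ^ (12 * n + 6) * ((1 - 1 / q) * (1 - 1 / q ^ 2) - δ) =
      q ^ (12 * n + 6) * ((1 - 1 / q) * (1 - 1 / q ^ 2)) -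
        (q ^ (12 * n + 6) * (δ / 4) + q ^ (12 * n + 6) * (δ / 4) +
          3 * (q ^ (12 * n + 6) * (δ / 12)) + q ^ (12 * n + 6) * (δ / 4)) := by ring
  rw [hfinal]
  have hQ : 0 < q ^ (12 * n + 6) * (δ / 4) := by positivity
  linarith

end LML

end Pool.AVS
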